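import Pool.Agent.Run7.h852.DN.Stm

set_option autoImplicit false

/-! # DN-INF: the energy surface of at least four bodies has infinite measure near collisions -/

namespace Run7.h781.DN

open MeasureTheory Set
open Pool.Agent.Y516.NW (E3 Cfg Surf NonW IsFl mom kin pot P2)
open Run7.h852.DN

theorem pl_castSucc {n : ℕ} (Q : Fin n → E3) (i : Fin n) : pl Q i.castSucc = Q i := by
  unfold pl
  exact Fin.snoc_castSucc (α := fun _ => E3) _ _ i

theorem pl_last {n : ℕ} (Q : Fin n → E3) : pl Q (Fin.last n) = 0 := by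
  unfold pl
  exact Fin.snoc_last (α := fun _ => E3) _ _

theorem conf_sub {n : ℕ} (m : Fin (n + 1) → ℝ) (Q : Fin n → E3) (i j : Fin (n + 1)) :
    conf m Q i - conf m Q j = pl Q i - pl Q j := by
  simp only [conf]
  abel

theorem kin_nonneg {n : ℕ} {m : Fin (n + 1) → ℝ} (hm : ∀ i, 0 < m i) (p : Cfg (n + 1)) :
    0 ≤ kin m p :=
  Finset.sum_nonneg fun i _ => by have := hm i; positivity

theorem kin_pos {n : ℕ} {m : Fin (n + 1) → ℝ} (hm : ∀ i, 0 < m i) {P : Fin n → E3} (hP : P ≠ 0) :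
    0 < kin m (mom P) := by
  obtain ⟨k, hk⟩ := Function.ne_iff.1 hP
  have h1 : 0 < ‖mom P k.castSucc‖ ^ 2 / (2 * m k.castSucc) := by
    rw [Pool.Agent.Y317.NW.mom_castSucc]
    have h2 : 0 < ‖P k‖ := norm_pos_iff.2 hk
    have := hm k.castSucc
    positivity
  refine h1.trans_le (Finset.single_le_sum (f := fun i => ‖mom P i‖ ^ 2 / (2 * m i))
    (fun i _ => ?_) (Finset.mem_univ k.castSucc))
  have := hm i
  positivity

/-- over a noncollision configuration the fibre of the whole energy surface is almost everything -/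
theorem fib_sub {n : ℕ} {m : Fin (n + 1) → ℝ} (hm : ∀ i, 0 < m i) {E : ℝ} {Q : Fin n → E3}
    (hQ : ∀ i j, i ≠ j → pl Q i ≠ pl Q j) (hk : 0 < ke m E Q) :
    {P : Fin n → E3 | kin m (mom P) ≤ 1} \ {0} ⊆ Fib m E (Surf m E) Q := by
  rintro P ⟨h1, h2⟩
  have hP : P ≠ 0 := h2
  have hkp := kin_pos hm hP
  refine ⟨h1, fun i j hij h => ?_, ?_, ?_, ?_⟩
  · have h3 := conf_sub m Q i j
    rw [show conf m Q i = conf m Q j from h, sub_self] at h3
    exact hQ i j hij (sub_eq_zero.1 h3.symm)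
  · have hM : (∑ k, m k) ≠ 0 := by
      have : 0 < ∑ k, m k := Finset.sum_pos (fun i _ => hm i) Finset.univ_nonempty
      exact this.ne'
    simp only [conf, smul_sub]
    rw [Finset.sum_sub_distrib, ← Finset.sum_smul, smul_smul, mul_inv_cancel₀ hM, one_smul, sub_self]
  · simp only [Pi.smul_apply]
    rw [← Finset.smul_sum]
    have h3 : ∑ i, mom P i = 0 := by
      rw [Fin.sum_univ_castSucc, Pool.Agent.Y317.NW.mom_last]
      simp only [Pool.Agent.Y317.NW.mom_castSucc]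
      exact add_neg_cancel _
    rw [h3, smul_zero]
  · have h3 : ∑ i, ‖(Real.sqrt (ke m E Q / kin m (mom P)) • mom P) i‖ ^ 2 / (2 * m i) =
        ke m E Q := by
      have h4 : ∀ i, ‖(Real.sqrt (ke m E Q / kin m (mom P)) • mom P) i‖ ^ 2 / (2 * m i) =
          (ke m E Q / kin m (mom P)) * (‖mom P i‖ ^ 2 / (2 * m i)) := by
        intro i
        rw [Pi.smul_apply, norm_smul, mul_pow, Real.norm_eq_abs, sq_abs,
          Real.sq_sqrt (div_nonneg hk.le hkp.le)]
        ring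
      simp only [h4]
      rw [← Finset.mul_sum]
      exact div_mul_cancel₀ _ hkp.ne'
    change ∑ i, ‖(Real.sqrt (ke m E Q / kin m (mom P)) • mom P) i‖ ^ 2 / (2 * m i) -
      pot m (conf m Q) = E
    rw [h3, ke]
    ring

theorem ball_vol (x : E3) (r : ℝ) (hr : 0 < r) :
    volume (Metric.ball x r) = ENNReal.ofReal (r ^ 3) * volume (Metric.ball (0 : E3) 1) := by
  rw [Measure.addHaar_ball volume x hr.le, finrank_euclideanSpace_fin]

theorem V1_pos : 0 < volume (Metric.ball (0 : E3) 1) := Metric.measure_ball_pos _ _ one_pos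

/-- the unit vector -/
noncomputable def uu : E3 := EuclideanSpace.single 0 1

theorem uu_norm : ‖uu‖ = 1 := by rw [uu]; simp

theorem uu_smul (t : ℝ) : ‖t • uu‖ = |t| := by rw [norm_smul, uu_norm, mul_one, Real.norm_eq_abs]

/-- the boxes -/
def TT (k : ℕ) (ε r : ℝ) : Set (Fin (k + 1) → E3) :=
  Set.pi Set.univ (Fin.cons (Metric.ball ((3 / 4 * r) • uu) (r / 4))
    (fun i : Fin k => Metric.ball ((4 * ε * ((i : ℝ) + 1)) • uu) ε) : Fin (k + 1) → Set E3)

theorem mem_TT {k : ℕ} {ε r : ℝ} {Q : Fin (k + 1) → E3} (hQ : Q ∈ TT k ε r) :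
    ‖Q 0 - (3 / 4 * r) • uu‖ < r / 4 ∧
      ∀ i : Fin k, ‖Q i.succ - (4 * ε * ((i : ℝ) + 1)) • uu‖ < ε := by
  refine ⟨?_, fun i => ?_⟩
  · have := hQ 0 (mem_univ _)
    rw [Fin.cons_zero, Metric.mem_ball, dist_eq_norm] at this
    exact this
  · have := hQ i.succ (mem_univ _)
    rw [Fin.cons_succ, Metric.mem_ball, dist_eq_norm] at this
    exact this

theorem TT_meas (k : ℕ) (ε r : ℝ) : MeasurableSet (TT k ε r) := by
  apply MeasurableSet.univ_pi
  intro i
  refine Fin.cases ?_ (fun j => ?_) i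
  · rw [Fin.cons_zero]; exact measurableSet_ball
  · rw [Fin.cons_succ]; exact measurableSet_ball

theorem TT_vol (k : ℕ) {ε r : ℝ} (hε : 0 < ε) (hr : 0 < r) :
    volume (TT k ε r) = ENNReal.ofReal ((r / 4) ^ 3) * volume (Metric.ball (0 : E3) 1) *
      (ENNReal.ofReal (ε ^ 3) * volume (Metric.ball (0 : E3) 1)) ^ k := by
  rw [TT, volume_pi_pi, Fin.prod_univ_succ, Fin.cons_zero, ball_vol _ _ (by positivity)]
  congr 1
  simp only [Fin.cons_succ, ball_vol _ _ hε]
  rw [Finset.prod_const, Finset.card_univ, Fintype.card_fin]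

theorem norm_Q0 {k : ℕ} {ε r : ℝ} (hr : 0 < r) {Q : Fin (k + 1) → E3} (hQ : Q ∈ TT k ε r) :
    r / 2 < ‖Q 0‖ ∧ ‖Q 0‖ < r := by
  have h1 := (mem_TT hQ).1
  have h2 : ‖(3 / 4 * r) • uu‖ = 3 / 4 * r := by rw [uu_smul, abs_of_pos (by positivity)]
  constructor
  · have h3 := norm_sub_norm_le ((3 / 4 * r) • uu) (Q 0)
    rw [norm_sub_rev, h2] at h3
    linarith
  · have h3 := norm_sub_norm_le (Q 0) ((3 / 4 * r) • uu)
    rw [h2] at h3
    linarith

/-- all positions are close to the centres -/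
theorem near {k : ℕ} {ε r : ℝ} (hr : 0 < r) (hrε : r ≤ ε) {Q : Fin (k + 1) → E3}
    (hQ : Q ∈ TT k ε r) (i : Fin (k + 1)) : ‖Q i - (4 * ε * (i : ℝ)) • uu‖ < ε := by
  refine Fin.cases ?_ (fun j => ?_) i
  · have := (norm_Q0 hr hQ).2
    simp only [Fin.val_zero, Nat.cast_zero, mul_zero, zero_smul, sub_zero]
    linarith
  · have := (mem_TT hQ).2 j
    rw [Fin.val_succ, Nat.cast_add, Nat.cast_one]
    exact this

theorem reg {k : ℕ} {ε r : ℝ} (hε : 0 < ε) (hr : 0 < r) (hrε : r ≤ ε) {Q : Fin (k + 1) → E3}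
    (hQ : Q ∈ TT k ε r) :
    (∀ i j, i ≠ j → pl Q i ≠ pl Q j) ∧ ∀ i, ‖pl Q i‖ ≤ 4 * ε * (k + 1) := by
  have hn := near hr hrε hQ
  have h0 : ∀ i : Fin (k + 1), Q i ≠ 0 := by
    intro i h
    by_cases hi : i = 0
    · have := (norm_Q0 hr hQ).1
      rw [← hi, h, norm_zero] at this
      linarith
    · have h1 := hn i
      rw [h, zero_sub, norm_neg, uu_smul, abs_of_nonneg (by positivity)] at h1
      have h2 : (1 : ℝ) ≤ (i : ℝ) := by
        have : 1 ≤ (i : ℕ) := Nat.one_le_iff_ne_zero.2 fun h => hi (Fin.ext h)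
        exact_mod_cast this
      nlinarith
  have hne : ∀ i j : Fin (k + 1), i ≠ j → Q i ≠ Q j := by
    intro i j hij h
    have h1 := hn i
    have h2 := hn j
    rw [← h] at h2
    have h3 : ‖(4 * ε * (i : ℝ)) • uu - (4 * ε * (j : ℝ)) • uu‖ < 2 * ε := by
      calc ‖(4 * ε * (i : ℝ)) • uu - (4 * ε * (j : ℝ)) • uu‖
          = ‖(Q i - (4 * ε * (j : ℝ)) • uu) - (Q i - (4 * ε * (i : ℝ)) • uu)‖ := by
            congr 1; abel
        _ ≤ ‖Q i - (4 * ε * (j : ℝ)) • uu‖ + ‖Q i - (4 * ε * (i : ℝ)) • uu‖ := norm_sub_le _ _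
        _ < 2 * ε := by linarith
    rw [← sub_smul, uu_smul, ← mul_sub, abs_mul, abs_of_pos (by positivity : 0 < 4 * ε)] at h3
    have h4 : (1 : ℝ) ≤ |(i : ℝ) - (j : ℝ)| := by
      have h5 : (1 : ℤ) ≤ |((i : ℕ) : ℤ) - ((j : ℕ) : ℤ)| := by
        apply Int.one_le_abs
        intro h6
        apply hij
        apply Fin.ext
        omega
      have h7 : ((|((i : ℕ) : ℤ) - ((j : ℕ) : ℤ)| : ℤ) : ℝ) = |(i : ℝ) - (j : ℝ)| := by
        push_cast
        rfl
      rw [← h7]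
      exact_mod_cast h5
    nlinarith
  refine ⟨fun i j => ?_, fun i => ?_⟩
  · refine Fin.lastCases ?_ (fun i => ?_) i
    · refine Fin.lastCases ?_ (fun j => ?_) j
      · intro h; exact absurd rfl h
      · intro _
        rw [pl_last, pl_castSucc]
        exact (h0 j).symm
    · refine Fin.lastCases ?_ (fun j => ?_) j
      · intro _
        rw [pl_last, pl_castSucc]
        exact h0 i
      · intro h
        rw [pl_castSucc, pl_castSucc]
        exact hne i j fun h' => h (by rw [h'])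
  · refine Fin.lastCases ?_ (fun i => ?_) i
    · rw [pl_last, norm_zero]; positivity
    · rw [pl_castSucc]
      have h1 := hn i
      have h2 := norm_sub_norm_le (Q i) ((4 * ε * (i : ℝ)) • uu)
      rw [uu_smul, abs_of_nonneg (by positivity)] at h2
      have h3 : (i : ℝ) ≤ k := by
        have := i.2
        exact_mod_cast Nat.lt_succ_iff.1 this
      nlinarith

/-- lower bound of the kinetic energy -/
theorem ke_ge {k : ℕ} {m : Fin (k + 1 + 1) → ℝ} (hm : ∀ i, 0 < m i) (E : ℝ)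
    (Q : Fin (k + 1) → E3) :
    m 0 * m (Fin.last (k + 1)) / ‖Q 0‖ / 2 + E ≤ ke m E Q := by
  rw [ke]
  have h1 : m 0 * m (Fin.last (k + 1)) / ‖conf m Q 0 - conf m Q (Fin.last (k + 1))‖ / 2 ≤
      pot m (conf m Q) := by
    unfold pot
    have h2 : m 0 * m (Fin.last (k + 1)) / ‖conf m Q 0 - conf m Q (Fin.last (k + 1))‖ / 2 ≤
        ∑ j, m 0 * m j / ‖conf m Q 0 - conf m Q j‖ / 2 :=
      Finset.single_le_sum (f := fun j => m 0 * m j / ‖conf m Q 0 - conf m Q j‖ / 2)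
        (fun j _ => by have := hm j; have := hm 0; positivity) (Finset.mem_univ _)
    refine h2.trans (Finset.single_le_sum
      (f := fun i => ∑ j, m i * m j / ‖conf m Q i - conf m Q j‖ / 2)
        (fun i _ => Finset.sum_nonneg fun j _ => ?_) (Finset.mem_univ _))
    have := hm j
    have := hm i
    positivity
  have h3 : conf m Q 0 - conf m Q (Fin.last (k + 1)) = Q 0 := by
    rw [conf_sub, pl_last, sub_zero]
    exact pl_castSucc Q 0
  rw [h3] at h1
  linarith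

theorem null_zero (k : ℕ) : volume ({0} : Set (Fin (k + 1) → E3)) = 0 := by
  have h : ({0} : Set (Fin (k + 1) → E3)) = Set.pi Set.univ (fun _ => {0}) := by
    ext Q
    simp only [mem_singleton_iff, Set.mem_pi, mem_univ, forall_const]
    exact funext_iff
  rw [h, volume_pi_pi]
  exact Finset.prod_eq_zero (Finset.mem_univ 0) (measure_singleton 0)

theorem t_DN_INF : InfStm := by
  intro n hn m hm E hE R hR
  obtain ⟨k, rfl⟩ : ∃ k, n = k + 1 := ⟨n - 1, by omega⟩
  obtain ⟨κ, hκ⟩ : ∃ κ : ℝ, κ = m 0 * m (Fin.last (k + 1)) / 4 := ⟨_, rfl⟩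
  have hκ0 : 0 < κ := by
    rw [hκ]; have := hm 0; have := hm (Fin.last (k + 1)); positivity
  obtain ⟨ε, hεdef⟩ : ∃ ε : ℝ, ε = min (R / (8 * (k + 1))) (min (κ / (-E)) κ) := ⟨_, rfl⟩
  have hE' : 0 < -E := by linarith
  have hε : 0 < ε := by
    rw [hεdef]
    exact lt_min (by positivity) (lt_min (by positivity) hκ0)
  have hε1 : ε ≤ R / (8 * (k + 1)) := by rw [hεdef]; exact min_le_left _ _
  have hε2 : ε ≤ κ / (-E) := by rw [hεdef]; exact (min_le_right _ _).trans (min_le_left _ _)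
  have hε3 : ε ≤ κ := by rw [hεdef]; exact (min_le_right _ _).trans (min_le_right _ _)
  have hεR : 4 * ε * (k + 1) ≤ R / 2 := by
    rw [le_div_iff₀ (by positivity)] at hε1
    linarith
  obtain ⟨r, hr⟩ : ∃ r : ℕ → ℝ, r = fun j => ε * (1 / 2) ^ j := ⟨_, rfl⟩
  have hr0 : ∀ j, 0 < r j := fun j => by rw [hr]; positivity
  have hrε : ∀ j, r j ≤ ε := fun j => by
    rw [hr]
    exact mul_le_of_le_one_right hε.le (pow_le_one₀ (by norm_num) (by norm_num))
  -- the kinetic energy over the boxes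
  have hke : ∀ j, ∀ Q ∈ TT k ε (r j), κ / r j ≤ ke m E Q := by
    intro j Q hQ
    obtain ⟨h1, h2⟩ := norm_Q0 (hr0 j) hQ
    have h3 := ke_ge hm E Q
    have hq : 0 < ‖Q 0‖ := by have := hr0 j; linarith
    have h4 : m 0 * m (Fin.last (k + 1)) / ‖Q 0‖ / 2 = 2 * (κ / ‖Q 0‖) := by
      rw [hκ]; ring
    have h5 : -E ≤ κ / ‖Q 0‖ := by
      rw [le_div_iff₀ hq]
      have h6 : ‖Q 0‖ ≤ κ / (-E) := (h2.le.trans (hrε j)).trans hε2
      rw [le_div_iff₀ hE'] at h6
      linarith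
    have h7 : κ / r j ≤ κ / ‖Q 0‖ := div_le_div_of_nonneg_left hκ0.le hq h2.le
    linarith
  have hge1 : ∀ j, 1 ≤ κ / r j := fun j => by
    rw [le_div_iff₀ (hr0 j), one_mul]; exact (hrε j).trans hε3
  have hreg : ∀ j, TT k ε (r j) ⊆ RegA m E R := by
    intro j Q hQ
    obtain ⟨h1, h2⟩ := reg hε (hr0 j) (hrε j) hQ
    refine ⟨h1, fun a b => ?_, ?_⟩
    · have := norm_sub_le (pl Q a) (pl Q b)
      have := h2 a
      have := h2 b
      linarith
    · have := hke j Q hQ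
      have := hge1 j
      linarith
  obtain ⟨v0, hv0⟩ : ∃ v0 : ENNReal, v0 = volume {P : Fin (k + 1) → E3 | kin m (mom P) ≤ 1} :=
    ⟨_, rfl⟩
  have hv0p : v0 ≠ 0 := by
    obtain ⟨R', -, -, h⟩ := Pool.Agent.Y317.NW.ball (k + 1) m hm
    rw [hv0]
    exact h.ne'
  -- lower bound of the integrand
  have hint : ∀ j, ∀ Q ∈ TT k ε (r j), ENNReal.ofReal ((κ / r j) ^ 3) * v0 ≤
      ENNReal.ofReal (ke m E Q ^ ((3 * ((k + 1 : ℕ) : ℝ) - 2) / 2)) *
        volume (Fib m E (Surf m E) Q) := by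
    intro j Q hQ
    obtain ⟨h1, -, h3⟩ := hreg j hQ
    apply mul_le_mul' (ENNReal.ofReal_le_ofReal ?_) ?_
    · have h4 := hke j Q hQ
      have h5 := hge1 j
      have h6 : (3 : ℝ) ≤ (3 * ((k + 1 : ℕ) : ℝ) - 2) / 2 := by
        have : (3 : ℝ) ≤ ((k + 1 : ℕ) : ℝ) := by exact_mod_cast hn
        linarith
      calc (κ / r j) ^ 3 ≤ ke m E Q ^ 3 := pow_le_pow_left₀ (by linarith) h4 3
        _ = ke m E Q ^ (3 : ℝ) := by
            rw [← Real.rpow_natCast]; norm_num
        _ ≤ ke m E Q ^ ((3 * ((k + 1 : ℕ) : ℝ) - 2) / 2) :=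
            Real.rpow_le_rpow_of_exponent_le (h5.trans h4) h6
    · rw [hv0, ← measure_sdiff_null (null_zero k)]
      exact measure_mono (fib_sub hm h1 h3)
  -- disjointness
  have hdis : Pairwise (Function.onFun Disjoint fun j => TT k ε (r j)) := by
    have key : ∀ i j : ℕ, i < j → Disjoint (TT k ε (r i)) (TT k ε (r j)) := by
      intro i j hij
      rw [Set.disjoint_left]
      intro Q h1 h2
      have h3 := (norm_Q0 (hr0 i) h1).1
      have h4 := (norm_Q0 (hr0 j) h2).2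
      have h5 : r j ≤ r i / 2 := by
        rw [hr]
        simp only
        have : ((1 : ℝ) / 2) ^ j ≤ (1 / 2) ^ (i + 1) :=
          pow_le_pow_of_le_one (by norm_num) (by norm_num) hij
        rw [pow_succ] at this
        nlinarith
      linarith
    intro i j hij
    rcases lt_or_gt_of_ne hij with h | h
    · exact key i j h
    · exact (key j i h).symm
  -- the constant
  obtain ⟨c, hc⟩ : ∃ c : ENNReal, c = ENNReal.ofReal ((κ / 4) ^ 3) * v0 *
    (volume (Metric.ball (0 : E3) 1) *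
      (ENNReal.ofReal (ε ^ 3) * volume (Metric.ball (0 : E3) 1)) ^ k) := ⟨_, rfl⟩
  have hc0 : c ≠ 0 := by
    have h1 : ENNReal.ofReal ((κ / 4) ^ 3) ≠ 0 := by
      rw [ne_eq, ENNReal.ofReal_eq_zero, not_le]; positivity
    have h2 : ENNReal.ofReal (ε ^ 3) ≠ 0 := by
      rw [ne_eq, ENNReal.ofReal_eq_zero, not_le]; positivity
    rw [hc]
    exact mul_ne_zero (mul_ne_zero h1 hv0p)
      (mul_ne_zero V1_pos.ne' (pow_ne_zero _ (mul_ne_zero h2 V1_pos.ne')))
  have hterm : ∀ j, c ≤ ∫⁻ Q in TT k ε (r j),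
      ENNReal.ofReal (ke m E Q ^ ((3 * ((k + 1 : ℕ) : ℝ) - 2) / 2)) *
        volume (Fib m E (Surf m E) Q) := by
    intro j
    refine le_trans ?_ (setLIntegral_mono' (TT_meas k ε (r j)) (hint j))
    rw [setLIntegral_const, TT_vol k hε (hr0 j), hc]
    apply le_of_eq
    have h1 : ENNReal.ofReal ((κ / 4) ^ 3) =
        ENNReal.ofReal ((κ / r j) ^ 3) * ENNReal.ofReal ((r j / 4) ^ 3) := by
      rw [← ENNReal.ofReal_mul (by have := hr0 j; positivity)]
      congr 1
      have := (hr0 j).ne'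
      field_simp
    rw [h1]
    ring
  rw [lio, eq_top_iff]
  calc (⊤ : ENNReal) = ∑' _ : ℕ, c := (ENNReal.tsum_const_eq_top_of_ne_zero hc0).symm
    _ ≤ ∑' j, ∫⁻ Q in TT k ε (r j),
        ENNReal.ofReal (ke m E Q ^ ((3 * ((k + 1 : ℕ) : ℝ) - 2) / 2)) *
          volume (Fib m E (Surf m E) Q) := ENNReal.tsum_le_tsum hterm
    _ = ∫⁻ Q in ⋃ j, TT k ε (r j),
        ENNReal.ofReal (ke m E Q ^ ((3 * ((k + 1 : ℕ) : ℝ) - 2) / 2)) *
          volume (Fib m E (Surf m E) Q) :=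
        (lintegral_iUnion (fun j => TT_meas k ε (r j)) hdis _).symm
    _ ≤ _ := lintegral_mono_set (iUnion_subset hreg)

end Run7.h781.DN
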